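import Pool.Agent.R602.ZR.Real

/-!
# Products of discrete spaces are strongly zero-dimensional: the core argument

The points of the product are the elements of the internal type `β`, the indices those of `α`;
`E j x y` says that the points `x` and `y` have the same coordinate at `j`, and `Ag E F x y` that
they have the same coordinates on the set `F` of indices.
-/

set_option autoImplicit false
set_option linter.all false

namespace Pool.Agent.R601.CZ

open Pool.Agent.Helper672.ZFA
open Pool.Agent.Helper672.ZFA.QM
open FirstOrder FirstOrder.Language

universe u u₁ u₂ u₃

section bz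

variable {M : Type u} [L.Structure M] [hM : IsModel M] {α : Type u₁} [ITy M α]

/-- One step: add all the sets obtained by adding one element. -/
noncomputable def bstep (M : Type u) [L.Structure M] [IsModel M] {α : Type u₁} [ITy M α]
    (S : IPow M (IPow M α)) : IPow M (IPow M α) :=
  sep M fun G => G ∈ S ∨ ∃ j G0, G0 ∈ S ∧ G = insert j G0

theorem mem_bstep {S : IPow M (IPow M α)} {G : IPow M α} :
    G ∈ bstep M S ↔ G ∈ S ∨ ∃ j G0, G0 ∈ S ∧ G = insert j G0 := by
  unfold bstep
  exact mem_sep (by (repeat' first
        | (with_reducible assumption)
        | (with_reducible exact IntF.id) | (with_reducible exact IntF.fst')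
        | (with_reducible exact IntF.snd') | (with_reducible exact IntF.const _)
        | (with_reducible exact Int.const _)
        | (with_reducible apply IntF.fst) | (with_reducible apply IntF.snd)
        | (with_reducible apply Int.and) | (with_reducible apply Int.or) | (with_reducible apply Int.not)
        | (with_reducible apply Int.ne) | (with_reducible apply Int.iff) | (with_reducible apply Int.imp)
        | (with_reducible apply Int.ex) | (with_reducible apply Int.all) | (with_reducible apply Int.eq)
        | (with_reducible apply Int.mem) | (with_reducible apply Int.subset) | (with_reducible apply Int.fin)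
        | (with_reducible_and_instances apply Int.leN) | (with_reducible_and_instances apply Int.ltN)
        | (with_reducible_and_instances apply Int.le) | (with_reducible_and_instances apply Int.lt)
        | (with_reducible_and_instances apply IntF.add) | (with_reducible_and_instances apply IntF.sub)
        | (with_reducible_and_instances apply IntF.mul) | (with_reducible_and_instances apply IntF.neg)
        | (with_reducible_and_instances apply IntF.div) | (with_reducible_and_instances apply IntF.inv)
        | (with_reducible apply IntF.pair) | (with_reducible apply IntF.succ) | (with_reducible apply IntF.sep)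
        | (with_reducible apply IntF.insert) | (with_reducible apply IntF.singleton)
        | (with_reducible ((refine IntF.comp₂ ?_ ?_ ?_); assumption))
        | (with_reducible ((refine Int.comp₂ ?_ ?_ ?_); assumption))
        | (with_reducible ((refine IntF.comp ?_ ?_); assumption))
        | (with_reducible ((refine Int.comp ?_ ?_); assumption))
        | (with_reducible apply IntF.app)))

theorem int_bstep : IntF M (fun q : INat M × IPow M (IPow M α) => bstep M q.2) := by
  unfold bstep
  exact (by (repeat' first
        | (with_reducible assumption)
        | (with_reducible exact IntF.id) | (with_reducible exact IntF.fst')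
        | (with_reducible exact IntF.snd') | (with_reducible exact IntF.const _)
        | (with_reducible exact Int.const _)
        | (with_reducible apply IntF.fst) | (with_reducible apply IntF.snd)
        | (with_reducible apply Int.and) | (with_reducible apply Int.or) | (with_reducible apply Int.not)
        | (with_reducible apply Int.ne) | (with_reducible apply Int.iff) | (with_reducible apply Int.imp)
        | (with_reducible apply Int.ex) | (with_reducible apply Int.all) | (with_reducible apply Int.eq)
        | (with_reducible apply Int.mem) | (with_reducible apply Int.subset) | (with_reducible apply Int.fin)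
        | (with_reducible_and_instances apply Int.leN) | (with_reducible_and_instances apply Int.ltN)
        | (with_reducible_and_instances apply Int.le) | (with_reducible_and_instances apply Int.lt)
        | (with_reducible_and_instances apply IntF.add) | (with_reducible_and_instances apply IntF.sub)
        | (with_reducible_and_instances apply IntF.mul) | (with_reducible_and_instances apply IntF.neg)
        | (with_reducible_and_instances apply IntF.div) | (with_reducible_and_instances apply IntF.inv)
        | (with_reducible apply IntF.pair) | (with_reducible apply IntF.succ) | (with_reducible apply IntF.sep)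
        | (with_reducible apply IntF.insert) | (with_reducible apply IntF.singleton)
        | (with_reducible ((refine IntF.comp₂ ?_ ?_ ?_); assumption))
        | (with_reducible ((refine Int.comp₂ ?_ ?_ ?_); assumption))
        | (with_reducible ((refine IntF.comp ?_ ?_); assumption))
        | (with_reducible ((refine Int.comp ?_ ?_); assumption))
        | (with_reducible apply IntF.app)))

variable (M α) in
/-- The sets with at most `k` elements. -/
noncomputable def bz (k : INat M) : IPow M (IPow M α) :=
  irec ({∅} : IPow M (IPow M α)) (fun _ S => bstep M S) k

theorem int_bz : IntF M (bz M α) := by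
  have h : IntF M (fun q : (INat M × INat M) × IPow M (IPow M α) => bstep M q.2) := by
    unfold bstep
    exact (by (repeat' first
        | (with_reducible assumption)
        | (with_reducible exact IntF.id) | (with_reducible exact IntF.fst')
        | (with_reducible exact IntF.snd') | (with_reducible exact IntF.const _)
        | (with_reducible exact Int.const _)
        | (with_reducible apply IntF.fst) | (with_reducible apply IntF.snd)
        | (with_reducible apply Int.and) | (with_reducible apply Int.or) | (with_reducible apply Int.not)
        | (with_reducible apply Int.ne) | (with_reducible apply Int.iff) | (with_reducible apply Int.imp)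
        | (with_reducible apply Int.ex) | (with_reducible apply Int.all) | (with_reducible apply Int.eq)
        | (with_reducible apply Int.mem) | (with_reducible apply Int.subset) | (with_reducible apply Int.fin)
        | (with_reducible_and_instances apply Int.leN) | (with_reducible_and_instances apply Int.ltN)
        | (with_reducible_and_instances apply Int.le) | (with_reducible_and_instances apply Int.lt)
        | (with_reducible_and_instances apply IntF.add) | (with_reducible_and_instances apply IntF.sub)
        | (with_reducible_and_instances apply IntF.mul) | (with_reducible_and_instances apply IntF.neg)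
        | (with_reducible_and_instances apply IntF.div) | (with_reducible_and_instances apply IntF.inv)
        | (with_reducible apply IntF.pair) | (with_reducible apply IntF.succ) | (with_reducible apply IntF.sep)
        | (with_reducible apply IntF.insert) | (with_reducible apply IntF.singleton)
        | (with_reducible ((refine IntF.comp₂ ?_ ?_ ?_); assumption))
        | (with_reducible ((refine Int.comp₂ ?_ ?_ ?_); assumption))
        | (with_reducible ((refine IntF.comp ?_ ?_); assumption))
        | (with_reducible ((refine Int.comp ?_ ?_); assumption))
        | (with_reducible apply IntF.app)))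
  exact IntF.irec (a := fun _ : INat M => ({∅} : IPow M (IPow M α))) (f := fun _ _ S => bstep M S)
    (n := fun n => n) (IntF.const _) h IntF.id

theorem _root_.Pool.Agent.Helper672.ZFA.IntF.bz {γ : Type*} [ITy M γ] {f : γ → INat M}
    (hf : IntF M f) : IntF M (fun c => bz M α (f c)) := IntF.comp int_bz hf

theorem bz_zero {G : IPow M α} : G ∈ bz M α 0 ↔ G = ∅ := by
  unfold bz
  rw [irec_zero int_bstep, mem_singleton]

theorem bz_succ {G : IPow M α} {k : INat M} :
    G ∈ bz M α k.succ ↔ G ∈ bz M α k ∨ ∃ j G0, G0 ∈ bz M α k ∧ G = insert j G0 := by
  unfold bz
  rw [irec_succ int_bstep, mem_bstep]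

theorem bz_mono {G : IPow M α} {k m : INat M} (h : k ≤ m) (hG : G ∈ bz M α k) : G ∈ bz M α m := by
  revert h
  refine INat.ind (p := fun m => k ≤ m → G ∈ bz M α m) (by (repeat' first
        | (with_reducible assumption)
        | (with_reducible exact IntF.id) | (with_reducible exact IntF.fst')
        | (with_reducible exact IntF.snd') | (with_reducible exact IntF.const _)
        | (with_reducible exact Int.const _)
        | (with_reducible apply IntF.fst) | (with_reducible apply IntF.snd)
        | (with_reducible apply Int.and) | (with_reducible apply Int.or) | (with_reducible apply Int.not)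
        | (with_reducible apply Int.ne) | (with_reducible apply Int.iff) | (with_reducible apply Int.imp)
        | (with_reducible apply Int.ex) | (with_reducible apply Int.all) | (with_reducible apply Int.eq)
        | (with_reducible apply Int.mem) | (with_reducible apply Int.subset) | (with_reducible apply Int.fin)
        | (with_reducible_and_instances apply Int.leN) | (with_reducible_and_instances apply Int.ltN)
        | (with_reducible_and_instances apply Int.le) | (with_reducible_and_instances apply Int.lt)
        | (with_reducible_and_instances apply IntF.add) | (with_reducible_and_instances apply IntF.sub)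
        | (with_reducible_and_instances apply IntF.mul) | (with_reducible_and_instances apply IntF.neg)
        | (with_reducible_and_instances apply IntF.div) | (with_reducible_and_instances apply IntF.inv)
        | (with_reducible apply IntF.pair) | (with_reducible apply IntF.succ) | (with_reducible apply IntF.sep)
        | (with_reducible apply IntF.insert) | (with_reducible apply IntF.singleton)
        | (with_reducible apply IntF.bz)
        | (with_reducible ((refine IntF.comp₂ ?_ ?_ ?_); assumption))
        | (with_reducible ((refine Int.comp₂ ?_ ?_ ?_); assumption))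
        | (with_reducible ((refine IntF.comp ?_ ?_); assumption))
        | (with_reducible ((refine Int.comp ?_ ?_); assumption))
        | (with_reducible apply IntF.app))) ?_ ?_ m
  · intro h
    rwa [le_antisymm h (INat.zero_le k)] at hG
  · intro n ih h
    rcases h.lt_or_eq with h1 | h1
    · exact bz_succ.2 (Or.inl (ih (INat.lt_succ_iff.1 h1)))
    · rwa [← h1]

theorem empty_mem_bz (k : INat M) : (∅ : IPow M α) ∈ bz M α k :=
  bz_mono (INat.zero_le k) (bz_zero.2 rfl)

theorem bz_insert {G : IPow M α} {k : INat M} (hG : G ∈ bz M α k) (j : α) :
    insert j G ∈ bz M α k.succ := bz_succ.2 (Or.inr ⟨j, G, hG, rfl⟩)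

theorem bz_remove : ∀ (k : INat M) (G : IPow M α) (j : α), G ∈ bz M α k.succ → j ∈ G →
    ∃ G0 : IPow M α, G0 ∈ bz M α k ∧ G ⊆ insert j G0 := by
  refine INat.ind (by (repeat' first
        | (with_reducible assumption)
        | (with_reducible exact IntF.id) | (with_reducible exact IntF.fst')
        | (with_reducible exact IntF.snd') | (with_reducible exact IntF.const _)
        | (with_reducible exact Int.const _)
        | (with_reducible apply IntF.fst) | (with_reducible apply IntF.snd)
        | (with_reducible apply Int.and) | (with_reducible apply Int.or) | (with_reducible apply Int.not)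
        | (with_reducible apply Int.ne) | (with_reducible apply Int.iff) | (with_reducible apply Int.imp)
        | (with_reducible apply Int.ex) | (with_reducible apply Int.all) | (with_reducible apply Int.eq)
        | (with_reducible apply Int.mem) | (with_reducible apply Int.subset) | (with_reducible apply Int.fin)
        | (with_reducible_and_instances apply Int.leN) | (with_reducible_and_instances apply Int.ltN)
        | (with_reducible_and_instances apply Int.le) | (with_reducible_and_instances apply Int.lt)
        | (with_reducible_and_instances apply IntF.add) | (with_reducible_and_instances apply IntF.sub)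
        | (with_reducible_and_instances apply IntF.mul) | (with_reducible_and_instances apply IntF.neg)
        | (with_reducible_and_instances apply IntF.div) | (with_reducible_and_instances apply IntF.inv)
        | (with_reducible apply IntF.pair) | (with_reducible apply IntF.succ) | (with_reducible apply IntF.sep)
        | (with_reducible apply IntF.insert) | (with_reducible apply IntF.singleton)
        | (with_reducible apply IntF.bz)
        | (with_reducible ((refine IntF.comp₂ ?_ ?_ ?_); assumption))
        | (with_reducible ((refine Int.comp₂ ?_ ?_ ?_); assumption))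
        | (with_reducible ((refine IntF.comp ?_ ?_); assumption))
        | (with_reducible ((refine Int.comp ?_ ?_); assumption))
        | (with_reducible apply IntF.app))) ?_ ?_
  · intro G j hG hj
    rcases bz_succ.1 hG with h | ⟨i, G0, h, rfl⟩
    · rw [bz_zero.1 h] at hj
      exact absurd hj (by simp)
    · have h0 := bz_zero.1 h
      subst h0
      rcases mem_insert.1 hj with rfl | h1
      · exact ⟨∅, h, fun x hx => hx⟩
      · exact absurd h1 (by simp)
  · intro k ih G j hG hj
    rcases bz_succ.1 hG with h | ⟨i, G0, h, rfl⟩
    · obtain ⟨G0, h0, h1⟩ := ih G j h hj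
      exact ⟨G0, bz_mono (INat.le_succ_self k) h0, h1⟩
    · rcases mem_insert.1 hj with rfl | h1
      · exact ⟨G0, h, fun x hx => hx⟩
      · obtain ⟨G2, h2, h3⟩ := ih G0 j h h1
        refine ⟨insert i G2, bz_insert h2 i, fun x hx => ?_⟩
        rcases mem_insert.1 hx with rfl | hx
        · exact mem_insert.2 (Or.inr (mem_insert.2 (Or.inl rfl)))
        · rcases mem_insert.1 (h3 x hx) with rfl | hx
          · exact mem_insert.2 (Or.inl rfl)
          · exact mem_insert.2 (Or.inr (mem_insert.2 (Or.inr hx)))

theorem exists_bz {G : IPow M α} (hG : IFin G) : ∃ k, G ∈ bz M α k := by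
  refine IFin.ind (p := fun G => ∃ k, G ∈ bz M α k) (by (repeat' first
        | (with_reducible assumption)
        | (with_reducible exact IntF.id) | (with_reducible exact IntF.fst')
        | (with_reducible exact IntF.snd') | (with_reducible exact IntF.const _)
        | (with_reducible exact Int.const _)
        | (with_reducible apply IntF.fst) | (with_reducible apply IntF.snd)
        | (with_reducible apply Int.and) | (with_reducible apply Int.or) | (with_reducible apply Int.not)
        | (with_reducible apply Int.ne) | (with_reducible apply Int.iff) | (with_reducible apply Int.imp)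
        | (with_reducible apply Int.ex) | (with_reducible apply Int.all) | (with_reducible apply Int.eq)
        | (with_reducible apply Int.mem) | (with_reducible apply Int.subset) | (with_reducible apply Int.fin)
        | (with_reducible_and_instances apply Int.leN) | (with_reducible_and_instances apply Int.ltN)
        | (with_reducible_and_instances apply Int.le) | (with_reducible_and_instances apply Int.lt)
        | (with_reducible_and_instances apply IntF.add) | (with_reducible_and_instances apply IntF.sub)
        | (with_reducible_and_instances apply IntF.mul) | (with_reducible_and_instances apply IntF.neg)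
        | (with_reducible_and_instances apply IntF.div) | (with_reducible_and_instances apply IntF.inv)
        | (with_reducible apply IntF.pair) | (with_reducible apply IntF.succ) | (with_reducible apply IntF.sep)
        | (with_reducible apply IntF.insert) | (with_reducible apply IntF.singleton)
        | (with_reducible apply IntF.bz)
        | (with_reducible ((refine IntF.comp₂ ?_ ?_ ?_); assumption))
        | (with_reducible ((refine Int.comp₂ ?_ ?_ ?_); assumption))
        | (with_reducible ((refine IntF.comp ?_ ?_); assumption))
        | (with_reducible ((refine Int.comp ?_ ?_); assumption))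
        | (with_reducible apply IntF.app))) ?_ ?_ G hG
  · exact ⟨0, empty_mem_bz 0⟩
  · rintro s a _ _ ⟨k, hk⟩
    exact ⟨k.succ, bz_insert hk a⟩

theorem iFin_of_bz : ∀ (k : INat M) (G : IPow M α), G ∈ bz M α k → IFin G := by
  refine INat.ind (by (repeat' first
        | (with_reducible assumption)
        | (with_reducible exact IntF.id) | (with_reducible exact IntF.fst')
        | (with_reducible exact IntF.snd') | (with_reducible exact IntF.const _)
        | (with_reducible exact Int.const _)
        | (with_reducible apply IntF.fst) | (with_reducible apply IntF.snd)
        | (with_reducible apply Int.and) | (with_reducible apply Int.or) | (with_reducible apply Int.not)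
        | (with_reducible apply Int.ne) | (with_reducible apply Int.iff) | (with_reducible apply Int.imp)
        | (with_reducible apply Int.ex) | (with_reducible apply Int.all) | (with_reducible apply Int.eq)
        | (with_reducible apply Int.mem) | (with_reducible apply Int.subset) | (with_reducible apply Int.fin)
        | (with_reducible_and_instances apply Int.leN) | (with_reducible_and_instances apply Int.ltN)
        | (with_reducible_and_instances apply Int.le) | (with_reducible_and_instances apply Int.lt)
        | (with_reducible_and_instances apply IntF.add) | (with_reducible_and_instances apply IntF.sub)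
        | (with_reducible_and_instances apply IntF.mul) | (with_reducible_and_instances apply IntF.neg)
        | (with_reducible_and_instances apply IntF.div) | (with_reducible_and_instances apply IntF.inv)
        | (with_reducible apply IntF.pair) | (with_reducible apply IntF.succ) | (with_reducible apply IntF.sep)
        | (with_reducible apply IntF.insert) | (with_reducible apply IntF.singleton)
        | (with_reducible apply IntF.bz)
        | (with_reducible ((refine IntF.comp₂ ?_ ?_ ?_); assumption))
        | (with_reducible ((refine Int.comp₂ ?_ ?_ ?_); assumption))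
        | (with_reducible ((refine IntF.comp ?_ ?_); assumption))
        | (with_reducible ((refine Int.comp ?_ ?_); assumption))
        | (with_reducible apply IntF.app))) ?_ ?_
  · intro G hG
    rw [bz_zero.1 hG]
    exact IFin.empty
  · intro k ih G hG
    rcases bz_succ.1 hG with h | ⟨i, G0, h, rfl⟩
    · exact ih G h
    · exact (ih G0 h).insert i

end bz

section core

variable {M : Type u} [L.Structure M] [hM : IsModel M]
variable {α : Type u₁} [ITy M α] {β : Type u₂} [ITy M β]

/-- Agreement on `F`. -/
def Ag (E : α → β → β → Prop) (F : IPow M α) (x y : β) : Prop := ∀ j, j ∈ F → E j x y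

theorem int_ag {E : α → β → β → Prop} (hE : Int M (fun q : α × (β × β) => E q.1 q.2.1 q.2.2))
    {γ : Type*} [ITy M γ] {F : γ → IPow M α} {x y : γ → β} (hF : IntF M F) (hx : IntF M x)
    (hy : IntF M y) : Int M (fun c => Ag E (F c) (x c) (y c)) := by
  unfold Ag
  refine Int.all (Int.imp (Int.mem IntF.snd' (hF.comp IntF.fst')) ?_)
  exact Int.comp (p := fun q : α × (β × β) => E q.1 q.2.1 q.2.2)
    (f := fun q : γ × α => (q.2, (x q.1, y q.1))) hE
    (IntF.snd'.pair ((hx.comp IntF.fst').pair (hy.comp IntF.fst')))

/-- The relations `E j` are equivalence relations, and any two points can be combined. -/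
structure IsProd (M : Type u) [L.Structure M] [IsModel M] {α : Type u₁} [ITy M α] {β : Type u₂}
    [ITy M β] (E : α → β → β → Prop) : Prop where
  int : Int M (fun q : α × (β × β) => E q.1 q.2.1 q.2.2)
  refl : ∀ j x, E j x x
  symm : ∀ j x y, E j x y → E j y x
  trans : ∀ j x y z, E j x y → E j y z → E j x z
  glue : ∀ (x y : β) (F : IPow M α), ∃ z, ∀ j, (j ∈ F → E j y z) ∧ (¬ j ∈ F → E j x z)

variable {E : α → β → β → Prop}

omit hM in
theorem Ag.mono [IsModel M] {F G : IPow M α} {x y : β} (h : Ag E G x y) (hFG : F ⊆ G) :
    Ag E F x y := fun j hj => h j (hFG j hj)

/-- The key lemma: closedness of the set of the points `x` with a set `G` with at most `k`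
elements such that all points that agree with `x` on `G` satisfy `K`. -/
theorem key (hE : IsProd M E) {K : β → Prop} (hK : Int M K)
    (hKc : ∀ y, ¬ K y → ∃ F : IPow M α, IFin F ∧ ∀ z, Ag E F y z → ¬ K z) (x : β) :
    ∀ (k : INat M) (r : IPow M α), IFin r →
      (∀ F : IPow M α, IFin F → ∃ (y : β) (G : IPow M α), G ∈ bz M α k ∧ Ag E F x y ∧
        Ag E r x y ∧ ∀ z, Ag E r y z → Ag E G y z → K z) →
      ∃ G : IPow M α, G ∈ bz M α k ∧ ∀ z, Ag E r x z → Ag E G x z → K z := by
  have hE' := hE.int
  refine INat.ind (by (repeat' first
        | (with_reducible assumption)
        | (with_reducible exact IntF.id) | (with_reducible exact IntF.fst')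
        | (with_reducible exact IntF.snd') | (with_reducible exact IntF.const _)
        | (with_reducible exact Int.const _)
        | (with_reducible apply IntF.fst) | (with_reducible apply IntF.snd)
        | (with_reducible apply Int.and) | (with_reducible apply Int.or) | (with_reducible apply Int.not)
        | (with_reducible apply Int.ne) | (with_reducible apply Int.iff) | (with_reducible apply Int.imp)
        | (with_reducible apply Int.ex) | (with_reducible apply Int.all) | (with_reducible apply Int.eq)
        | (with_reducible apply Int.mem) | (with_reducible apply Int.subset) | (with_reducible apply Int.fin)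
        | (with_reducible_and_instances apply Int.leN) | (with_reducible_and_instances apply Int.ltN)
        | (with_reducible_and_instances apply Int.le) | (with_reducible_and_instances apply Int.lt)
        | (with_reducible_and_instances apply IntF.add) | (with_reducible_and_instances apply IntF.sub)
        | (with_reducible_and_instances apply IntF.mul) | (with_reducible_and_instances apply IntF.neg)
        | (with_reducible_and_instances apply IntF.div) | (with_reducible_and_instances apply IntF.inv)
        | (with_reducible apply IntF.pair) | (with_reducible apply IntF.succ) | (with_reducible apply IntF.sep)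
        | (with_reducible apply IntF.insert) | (with_reducible apply IntF.singleton)
        | (with_reducible apply IntF.bz)
        | (with_reducible ((refine int_ag ?_ ?_ ?_ ?_); assumption))
        | (with_reducible ((refine IntF.comp₂ ?_ ?_ ?_); assumption))
        | (with_reducible ((refine Int.comp₂ ?_ ?_ ?_); assumption))
        | (with_reducible ((refine IntF.comp ?_ ?_); assumption))
        | (with_reducible ((refine Int.comp ?_ ?_); assumption))
        | (with_reducible apply IntF.app))) ?_ ?_
  · intro r hr h
    refine ⟨∅, empty_mem_bz 0, fun z hz _ => ?_⟩
    by_contra hKz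
    obtain ⟨F, hF, hF'⟩ := hKc z hKz
    obtain ⟨y, G, hG, h1, h2, h3⟩ := h F hF
    rw [bz_zero.1 hG] at h3
    -- glue: `w` agrees with `y` on `r`
    refine hF' z (fun j _ => hE.refl j z) (h3 z (fun j hj => ?_) fun j hj => absurd hj (by simp))
    exact hE.trans j _ _ _ (hE.symm j _ _ (h2 j hj)) (hz j hj)
  · intro k ih r hr h
    by_cases hA : ∃ j, ∀ F : IPow M α, IFin F → ∃ (y : β) (G : IPow M α), G ∈ bz M α k ∧
        Ag E F x y ∧ Ag E (insert j r) x y ∧ ∀ z, Ag E (insert j r) y z → Ag E G y z → K z
    · obtain ⟨j, hj⟩ := hA
      obtain ⟨G, hG, h1⟩ := ih (insert j r) (hr.insert j) hj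
      refine ⟨insert j G, bz_insert hG j, fun z hz hz' => h1 z (fun i hi => ?_) fun i hi => ?_⟩
      · rcases mem_insert.1 hi with rfl | hi
        · exact hz' i (mem_insert.2 (Or.inl rfl))
        · exact hz i hi
      · exact hz' i (mem_insert.2 (Or.inr hi))
    · push Not at hA
      refine ⟨∅, empty_mem_bz _, fun z hz _ => ?_⟩
      by_contra hKz
      obtain ⟨F0, hF0, hF0'⟩ := hKc z hKz
      have hi : Int M (fun q : α × IPow M α => IFin q.2 ∧ ∀ (y : β) (G : IPow M α),
          G ∈ bz M α k → Ag E q.2 x y → Ag E (insert q.1 r) x y →
          ∃ z, Ag E (insert q.1 r) y z ∧ Ag E G y z ∧ ¬ K z) := by (repeat' first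
        | (with_reducible assumption)
        | (with_reducible exact IntF.id) | (with_reducible exact IntF.fst')
        | (with_reducible exact IntF.snd') | (with_reducible exact IntF.const _)
        | (with_reducible exact Int.const _)
        | (with_reducible apply IntF.fst) | (with_reducible apply IntF.snd)
        | (with_reducible apply Int.and) | (with_reducible apply Int.or) | (with_reducible apply Int.not)
        | (with_reducible apply Int.ne) | (with_reducible apply Int.iff) | (with_reducible apply Int.imp)
        | (with_reducible apply Int.ex) | (with_reducible apply Int.all) | (with_reducible apply Int.eq)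
        | (with_reducible apply Int.mem) | (with_reducible apply Int.subset) | (with_reducible apply Int.fin)
        | (with_reducible_and_instances apply Int.leN) | (with_reducible_and_instances apply Int.ltN)
        | (with_reducible_and_instances apply Int.le) | (with_reducible_and_instances apply Int.lt)
        | (with_reducible_and_instances apply IntF.add) | (with_reducible_and_instances apply IntF.sub)
        | (with_reducible_and_instances apply IntF.mul) | (with_reducible_and_instances apply IntF.neg)
        | (with_reducible_and_instances apply IntF.div) | (with_reducible_and_instances apply IntF.inv)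
        | (with_reducible apply IntF.pair) | (with_reducible apply IntF.succ) | (with_reducible apply IntF.sep)
        | (with_reducible apply IntF.insert) | (with_reducible apply IntF.singleton)
        | (with_reducible apply IntF.bz)
        | (with_reducible ((refine int_ag ?_ ?_ ?_ ?_); assumption))
        | (with_reducible ((refine IntF.comp₂ ?_ ?_ ?_); assumption))
        | (with_reducible ((refine Int.comp₂ ?_ ?_ ?_); assumption))
        | (with_reducible ((refine IntF.comp ?_ ?_); assumption))
        | (with_reducible ((refine Int.comp ?_ ?_); assumption))
        | (with_reducible apply IntF.app))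
      obtain ⟨F1, hF1⟩ := IFin.exists_bound (r := fun (j : α) (F : IPow M α) => IFin F ∧
        ∀ (y : β) (G : IPow M α), G ∈ bz M α k → Ag E F x y → Ag E (insert j r) x y →
          ∃ z, Ag E (insert j r) y z ∧ Ag E G y z ∧ ¬ K z) hi (fun b c => by
        by_cases hb : IFin b
        · by_cases hc : IFin c
          · refine ⟨b ∪ c, fun a h4 => ⟨hb.union hc, fun y G hG h5 h6 => ?_⟩⟩
            rcases h4 with h4 | h4
            · exact h4.2 y G hG (h5.mono fun j hj => mem_union.2 (Or.inl hj)) h6
            · exact h4.2 y G hG (h5.mono fun j hj => mem_union.2 (Or.inr hj)) h6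
          · exact ⟨b, fun a h4 => h4.elim id fun h5 => absurd h5.1 hc⟩
        · exact ⟨c, fun a h4 => h4.elim (fun h5 => absurd h5.1 hb) id⟩) ⟨∅⟩ hF0 fun j _ => by
        obtain ⟨F, hF, h4⟩ := hA j
        exact ⟨F, hF, h4⟩
      by_cases hne : ∃ j, j ∈ F0
      · obtain ⟨j0, hj0⟩ := hne
        have hF1' : IFin F1 := (hF1 j0 hj0).1
        obtain ⟨y, G, hG, h1, h2, h3⟩ := h (F0 ∪ F1) (hF0.union hF1')
        have hdis : ∀ j, j ∈ F0 → ¬ j ∈ G := by
          intro j hj hjG
          obtain ⟨G0, hG0, hGG⟩ := bz_remove k G j hG hjG
          obtain ⟨w, hw1, hw2, hw3⟩ := (hF1 j hj).2 y G0 hG0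
            (h1.mono fun i hi => mem_union.2 (Or.inr hi)) (fun i hi => by
              rcases mem_insert.1 hi with rfl | hi
              · exact h1 i (mem_union.2 (Or.inl hj))
              · exact h2 i hi)
          refine hw3 (h3 w (fun i hi => hw1 i (mem_insert.2 (Or.inr hi))) fun i hi => ?_)
          rcases mem_insert.1 (hGG i hi) with rfl | hi
          · exact hw1 i (mem_insert.2 (Or.inl rfl))
          · exact hw2 i hi
        obtain ⟨w, hw⟩ := hE.glue z y G
        refine hF0' w (fun j hj => (hw j).2 (hdis j hj)) (h3 w (fun j hj => ?_) fun j hj =>
          (hw j).1 hj)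
        by_cases hjG : j ∈ G
        · exact (hw j).1 hjG
        · exact hE.trans j _ _ _ (hE.symm j _ _ (h2 j hj)) (hE.trans j _ _ _ (hz j hj)
            ((hw j).2 hjG))
      · obtain ⟨y, G, hG, h1, h2, h3⟩ := h ∅ IFin.empty
        obtain ⟨w, hw⟩ := hE.glue z y G
        refine hF0' w (fun j hj => absurd ⟨j, hj⟩ hne) (h3 w (fun j hj => ?_) fun j hj =>
          (hw j).1 hj)
        by_cases hjG : j ∈ G
        · exact (hw j).1 hjG
        · exact hE.trans j _ _ _ (hE.symm j _ _ (h2 j hj)) (hE.trans j _ _ _ (hz j hj)
            ((hw j).2 hjG))

/-- The points with a set with at most `k` elements such that all points that agree on it satisfy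
`K`. -/
def InW (M : Type u) [L.Structure M] [IsModel M] {α : Type u₁} [ITy M α] {β : Type u₂} [ITy M β]
    (E : α → β → β → Prop) (K : β → Prop) (k : INat M) (x : β) : Prop :=
  ∃ G : IPow M α, G ∈ bz M α k ∧ ∀ z, Ag E G x z → K z

theorem int_inW (hE : IsProd M E) {K : β → Prop} (hK : Int M K) :
    Int M (fun q : INat M × β => InW M E K q.1 q.2) := by
  have hE' := hE.int
  unfold InW
  exact (by (repeat' first
        | (with_reducible assumption)
        | (with_reducible exact IntF.id) | (with_reducible exact IntF.fst')
        | (with_reducible exact IntF.snd') | (with_reducible exact IntF.const _)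
        | (with_reducible exact Int.const _)
        | (with_reducible apply IntF.fst) | (with_reducible apply IntF.snd)
        | (with_reducible apply Int.and) | (with_reducible apply Int.or) | (with_reducible apply Int.not)
        | (with_reducible apply Int.ne) | (with_reducible apply Int.iff) | (with_reducible apply Int.imp)
        | (with_reducible apply Int.ex) | (with_reducible apply Int.all) | (with_reducible apply Int.eq)
        | (with_reducible apply Int.mem) | (with_reducible apply Int.subset) | (with_reducible apply Int.fin)
        | (with_reducible_and_instances apply Int.leN) | (with_reducible_and_instances apply Int.ltN)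
        | (with_reducible_and_instances apply Int.le) | (with_reducible_and_instances apply Int.lt)
        | (with_reducible_and_instances apply IntF.add) | (with_reducible_and_instances apply IntF.sub)
        | (with_reducible_and_instances apply IntF.mul) | (with_reducible_and_instances apply IntF.neg)
        | (with_reducible_and_instances apply IntF.div) | (with_reducible_and_instances apply IntF.inv)
        | (with_reducible apply IntF.pair) | (with_reducible apply IntF.succ) | (with_reducible apply IntF.sep)
        | (with_reducible apply IntF.insert) | (with_reducible apply IntF.singleton)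
        | (with_reducible apply IntF.bz)
        | (with_reducible ((refine int_ag ?_ ?_ ?_ ?_); assumption))
        | (with_reducible ((refine IntF.comp₂ ?_ ?_ ?_); assumption))
        | (with_reducible ((refine Int.comp₂ ?_ ?_ ?_); assumption))
        | (with_reducible ((refine IntF.comp ?_ ?_); assumption))
        | (with_reducible ((refine Int.comp ?_ ?_); assumption))
        | (with_reducible apply IntF.app)))

theorem inW_mono {K : β → Prop} {k m : INat M} (h : k ≤ m) {x : β} (hx : InW M E K k x) :
    InW M E K m x := by
  obtain ⟨G, hG, h1⟩ := hx
  exact ⟨G, bz_mono h hG, h1⟩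

theorem inW_open (hE : IsProd M E) {K : β → Prop} {k : INat M} {x : β} (hx : InW M E K k x) :
    ∃ F : IPow M α, IFin F ∧ ∀ y, Ag E F x y → InW M E K k y := by
  obtain ⟨G, hG, h1⟩ := hx
  exact ⟨G, iFin_of_bz k G hG, fun y hy => ⟨G, hG, fun z hz => h1 z fun j hj =>
    hE.trans j _ _ _ (hy j hj) (hz j hj)⟩⟩

theorem inW_closed (hE : IsProd M E) {K : β → Prop} (hK : Int M K)
    (hKc : ∀ y, ¬ K y → ∃ F : IPow M α, IFin F ∧ ∀ z, Ag E F y z → ¬ K z) {k : INat M} {x : β}
    (hx : ¬ InW M E K k x) :
    ∃ F : IPow M α, IFin F ∧ ∀ y, Ag E F x y → ¬ InW M E K k y := by
  by_contra hc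
  push Not at hc
  obtain ⟨G, hG, h1⟩ := key hE hK hKc x k ∅ IFin.empty fun F hF => by
    obtain ⟨y, hy, G, hG, h1⟩ := hc F hF
    exact ⟨y, G, hG, hy, fun j hj => absurd hj (by simp), fun z _ hz => h1 z hz⟩
  exact hx ⟨G, hG, fun z hz => h1 z (fun j hj => absurd hj (by simp)) hz⟩

end core

section real

variable {M : Type u} [L.Structure M] [hM : IsModel M]
variable {ρ : Type u₃} [ITy M ρ] [Field ρ] [LinearOrder ρ] [IsStrictOrderedRing ρ]
  [hρ : IReal M ρ] {α : Type u₁} [ITy M α] {β : Type u₂} [ITy M β] {E : α → β → β → Prop}

/-- Products of discrete spaces are strongly zero-dimensional. -/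
theorem core (hE : IsProd M E) {f : β → ρ} (hf : IntF M f)
    (hc : ∀ (x : β) (e : ρ), 0 < e → ∃ F : IPow M α, IFin F ∧ ∀ y, Ag E F x y → |f x - f y| < e) :
    ∃ C : IPow M β,
      (∀ x, x ∈ C → ∃ F : IPow M α, IFin F ∧ ∀ y, Ag E F x y → y ∈ C) ∧
      (∀ x, ¬ x ∈ C → ∃ F : IPow M α, IFin F ∧ ∀ y, Ag E F x y → ¬ y ∈ C) ∧
      (∀ x, f x = 0 → x ∈ C) ∧ ∀ x, f x = 1 → ¬ x ∈ C := by
  have h3 : (0 : ρ) < 1 / 3 := by norm_num
  set V : INat M → β → Prop := InW M E (fun x => f x ≤ 2 / 3) with hV
  set W : INat M → β → Prop := InW M E (fun x => 1 / 3 ≤ f x) with hW
  have hK1 : Int M (fun x => f x ≤ 2 / 3) := Pool.Agent.Helper672.ZFA.Int.le hf (IntF.const _)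
  have hK2 : Int M (fun x => 1 / 3 ≤ f x) := Pool.Agent.Helper672.ZFA.Int.le (IntF.const _) hf
  have hVi : Int M (fun q : INat M × β => V q.1 q.2) := int_inW hE hK1
  have hWi : Int M (fun q : INat M × β => W q.1 q.2) := int_inW hE hK2
  have hc1 : ∀ y, ¬ f y ≤ 2 / 3 → ∃ F : IPow M α, IFin F ∧ ∀ z, Ag E F y z → ¬ f z ≤ 2 / 3 := by
    intro y hy
    obtain ⟨F, hF, h⟩ := hc y (f y - 2 / 3) (by linarith)
    refine ⟨F, hF, fun z hz => ?_⟩
    have := (abs_sub_lt_iff.1 (h z hz)).1
    linarith
  have hc2 : ∀ y, ¬ 1 / 3 ≤ f y → ∃ F : IPow M α, IFin F ∧ ∀ z, Ag E F y z → ¬ 1 / 3 ≤ f z := by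
    intro y hy
    obtain ⟨F, hF, h⟩ := hc y (1 / 3 - f y) (by linarith)
    refine ⟨F, hF, fun z hz => ?_⟩
    have := (abs_sub_lt_iff.1 (h z hz)).2
    linarith
  have hVo : ∀ k x, V k x → ∃ F : IPow M α, IFin F ∧ ∀ y, Ag E F x y → V k y :=
    fun k x hx => inW_open hE hx
  have hWo : ∀ k x, W k x → ∃ F : IPow M α, IFin F ∧ ∀ y, Ag E F x y → W k y :=
    fun k x hx => inW_open hE hx
  have hVc : ∀ k x, ¬ V k x → ∃ F : IPow M α, IFin F ∧ ∀ y, Ag E F x y → ¬ V k y :=
    fun k x hx => inW_closed hE hK1 hc1 hx
  have hWc : ∀ k x, ¬ W k x → ∃ F : IPow M α, IFin F ∧ ∀ y, Ag E F x y → ¬ W k y :=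
    fun k x hx => inW_closed hE hK2 hc2 hx
  have hVe : ∀ x, f x < 2 / 3 → ∃ k, V k x := by
    intro x hx
    obtain ⟨F, hF, h⟩ := hc x (2 / 3 - f x) (by linarith)
    obtain ⟨k, hk⟩ := exists_bz hF
    refine ⟨k, F, hk, fun z hz => ?_⟩
    have := (abs_sub_lt_iff.1 (h z hz)).2
    linarith
  have hWe : ∀ x, 1 / 3 < f x → ∃ k, W k x := by
    intro x hx
    obtain ⟨F, hF, h⟩ := hc x (f x - 1 / 3) (by linarith)
    obtain ⟨k, hk⟩ := exists_bz hF
    refine ⟨k, F, hk, fun z hz => ?_⟩
    have := (abs_sub_lt_iff.1 (h z hz)).1
    linarith
  have hCi : Int M (fun x : β => ∃ k, V k x ∧ ∀ m, m < k → ¬ W m x) := by (repeat' first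
        | (with_reducible assumption)
        | (with_reducible exact IntF.id) | (with_reducible exact IntF.fst')
        | (with_reducible exact IntF.snd') | (with_reducible exact IntF.const _)
        | (with_reducible exact Int.const _)
        | (with_reducible apply IntF.fst) | (with_reducible apply IntF.snd)
        | (with_reducible apply Int.and) | (with_reducible apply Int.or) | (with_reducible apply Int.not)
        | (with_reducible apply Int.ne) | (with_reducible apply Int.iff) | (with_reducible apply Int.imp)
        | (with_reducible apply Int.ex) | (with_reducible apply Int.all) | (with_reducible apply Int.eq)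
        | (with_reducible apply Int.mem) | (with_reducible apply Int.subset) | (with_reducible apply Int.fin)
        | (with_reducible_and_instances apply Int.leN) | (with_reducible_and_instances apply Int.ltN)
        | (with_reducible_and_instances apply Int.le) | (with_reducible_and_instances apply Int.lt)
        | (with_reducible_and_instances apply IntF.add) | (with_reducible_and_instances apply IntF.sub)
        | (with_reducible_and_instances apply IntF.mul) | (with_reducible_and_instances apply IntF.neg)
        | (with_reducible_and_instances apply IntF.div) | (with_reducible_and_instances apply IntF.inv)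
        | (with_reducible apply IntF.pair) | (with_reducible apply IntF.succ) | (with_reducible apply IntF.sep)
        | (with_reducible apply IntF.insert) | (with_reducible apply IntF.singleton)
        | (with_reducible apply IntF.bz)
        | (with_reducible ((refine int_ag ?_ ?_ ?_ ?_); assumption))
        | (with_reducible ((refine IntF.comp₂ ?_ ?_ ?_); assumption))
        | (with_reducible ((refine Int.comp₂ ?_ ?_ ?_); assumption))
        | (with_reducible ((refine IntF.comp ?_ ?_); assumption))
        | (with_reducible ((refine Int.comp ?_ ?_); assumption))
        | (with_reducible apply IntF.app))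
  set C : IPow M β := sep M fun x : β => ∃ k, V k x ∧ ∀ m, m < k → ¬ W m x with hCd
  have hC : ∀ x, x ∈ C ↔ ∃ k, V k x ∧ ∀ m, m < k → ¬ W m x := fun x => mem_sep hCi
  refine ⟨C, fun x hx => ?_, fun x hx => ?_, fun x hx => ?_, fun x hx => ?_⟩
  · obtain ⟨k, hk, h1⟩ := (hC x).1 hx
    obtain ⟨F, hF, h2⟩ := hVo k x hk
    rcases INat.eq_zero_or_succ k with rfl | ⟨m, rfl⟩
    · exact ⟨F, hF, fun y hy => (hC y).2 ⟨0, h2 y hy, fun m hm => absurd hm INat.not_lt_zero⟩⟩
    · obtain ⟨F', hF', h3⟩ := hWc m x (h1 m (INat.lt_succ_self m))
      refine ⟨F ∪ F', hF.union hF', fun y hy => (hC y).2 ⟨m.succ, h2 y (hy.mono fun j hj =>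
        mem_union.2 (Or.inl hj)), fun n hn h4 => ?_⟩⟩
      exact h3 y (hy.mono fun j hj => mem_union.2 (Or.inr hj)) (inW_mono (INat.lt_succ_iff.1 hn) h4)
  · have hx' : ∀ k, V k x → ∃ m, m < k ∧ W m x := by
      intro k hk
      by_contra h1
      push Not at h1
      exact hx ((hC x).2 ⟨k, hk, h1⟩)
    have hex : ∃ m, W m x := by
      by_cases h1 : f x < 2 / 3
      · obtain ⟨k, hk⟩ := hVe x h1
        obtain ⟨m, -, hm⟩ := hx' k hk
        exact ⟨m, hm⟩
      · exact hWe x (by linarith)
    have hWx : Int M (fun m : INat M => W m x) := by (repeat' first
        | (with_reducible assumption)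
        | (with_reducible exact IntF.id) | (with_reducible exact IntF.fst')
        | (with_reducible exact IntF.snd') | (with_reducible exact IntF.const _)
        | (with_reducible exact Int.const _)
        | (with_reducible apply IntF.fst) | (with_reducible apply IntF.snd)
        | (with_reducible apply Int.and) | (with_reducible apply Int.or) | (with_reducible apply Int.not)
        | (with_reducible apply Int.ne) | (with_reducible apply Int.iff) | (with_reducible apply Int.imp)
        | (with_reducible apply Int.ex) | (with_reducible apply Int.all) | (with_reducible apply Int.eq)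
        | (with_reducible apply Int.mem) | (with_reducible apply Int.subset) | (with_reducible apply Int.fin)
        | (with_reducible_and_instances apply Int.leN) | (with_reducible_and_instances apply Int.ltN)
        | (with_reducible_and_instances apply Int.le) | (with_reducible_and_instances apply Int.lt)
        | (with_reducible_and_instances apply IntF.add) | (with_reducible_and_instances apply IntF.sub)
        | (with_reducible_and_instances apply IntF.mul) | (with_reducible_and_instances apply IntF.neg)
        | (with_reducible_and_instances apply IntF.div) | (with_reducible_and_instances apply IntF.inv)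
        | (with_reducible apply IntF.pair) | (with_reducible apply IntF.succ) | (with_reducible apply IntF.sep)
        | (with_reducible apply IntF.insert) | (with_reducible apply IntF.singleton)
        | (with_reducible apply IntF.bz)
        | (with_reducible ((refine int_ag ?_ ?_ ?_ ?_); assumption))
        | (with_reducible ((refine IntF.comp₂ ?_ ?_ ?_); assumption))
        | (with_reducible ((refine Int.comp₂ ?_ ?_ ?_); assumption))
        | (with_reducible ((refine IntF.comp ?_ ?_); assumption))
        | (with_reducible ((refine Int.comp ?_ ?_); assumption))
        | (with_reducible apply IntF.app))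
    obtain ⟨m, hm, hmin⟩ := INat.exists_least hWx hex
    have hVm : ¬ V m x := fun h1 => by
      obtain ⟨n, hn, h2⟩ := hx' m h1
      exact absurd (hmin n h2) (not_le.2 hn)
    obtain ⟨F, hF, h1⟩ := hWo m x hm
    obtain ⟨F', hF', h2⟩ := hVc m x hVm
    refine ⟨F ∪ F', hF.union hF', fun y hy hyC => ?_⟩
    obtain ⟨k, hk, h4⟩ := (hC y).1 hyC
    have h5 := h1 y (hy.mono fun j hj => mem_union.2 (Or.inl hj))
    have h6 := h2 y (hy.mono fun j hj => mem_union.2 (Or.inr hj))
    rcases lt_or_ge m k with h7 | h7
    · exact h4 m h7 h5
    · exact h6 (inW_mono h7 hk)
  · obtain ⟨k, hk⟩ := hVe x (by rw [hx]; norm_num)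
    refine (hC x).2 ⟨k, hk, fun m _ hm => ?_⟩
    obtain ⟨G, -, h1⟩ := hm
    have h2 : (1 : ρ) / 3 ≤ f x := h1 x fun j _ => hE.refl j x
    rw [hx] at h2
    linarith
  · intro h1
    obtain ⟨k, hk, -⟩ := (hC x).1 h1
    obtain ⟨G, -, h2⟩ := hk
    have h4 : f x ≤ 2 / 3 := h2 x fun j _ => hE.refl j x
    rw [hx] at h4
    norm_num at h4

end real

end Pool.Agent.R601.CZ
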