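import Pool.Agent.R601.CZ.Core
import Pool.Agent.R602.ZR.TransN

/-!
# Products of discrete spaces are strongly zero-dimensional, in models of set theory
-/

set_option autoImplicit false
set_option linter.all false

namespace Pool.Agent.R601.CZ

open Pool.Agent.Helper672.ZFA
open Pool.Agent.Helper672.ZFA.QM
open Pool.Agent.R602.ZR
open Pool.Agent.Y9.ZR (FiniteIn)
open FirstOrder FirstOrder.Language

universe u

/-- In the model, `τ` is the discrete topology on `X`. -/
def IsDiscreteIn {M : Type u} [L.Structure M] (X τ : M) : Prop := ∀ U, Mem U τ ↔ IsSub U X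

section

variable {M : Type u} [L.Structure M] [hM : IsModel M] {J P σ : M} {X τ : El J → M}

/-- The functions `x` and `y` have the same value at `j`. -/
def SameAt (j : El J) (x y : El P) : Prop := ∀ v : M, Mem (op j.1 v) x.1 ↔ Mem (op j.1 v) y.1

theorem int_sameAt : Int M (fun q : El J × (El P × El P) => SameAt q.1 q.2.1 q.2.2) := by
  refine Int.of_D (S := fun v => ∃ j, ∃ x, ∃ y, v 0 = op j (op x y) ∧
    ∀ w, (Mem (op j w) x ↔ Mem (op j w) y)) ?_ ?_
  · refine D.ex (D.ex (D.ex (D.and (D.eqf (DF.var _) (DF.op (DF.var _) (DF.op (DF.var _)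
      (DF.var _)))) (D.all (D.iff (D.memf (DF.op (DF.var _) (DF.var _)) (DF.var _))
      (D.memf (DF.op (DF.var _) (DF.var _)) (DF.var _)))))))
  · rintro ⟨j, x, y⟩
    constructor
    · rintro ⟨j', x', y', h1, h2⟩
      obtain ⟨h3, h4⟩ := op_inj (h1 : op j.1 (op x.1 y.1) = op j' (op x' y'))
      obtain ⟨h5, h6⟩ := op_inj h4
      subst h3 h5 h6
      exact h2
    · intro h
      exact ⟨j.1, x.1, y.1, rfl, h⟩

theorem isProd_of (hP : IsProdSpace X τ P σ) : IsProd M (SameAt (J := J) (P := P)) where
  int := int_sameAt
  refl := fun _ _ _ => Iff.rfl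
  symm := fun _ _ _ h v => (h v).symm
  trans := fun _ _ _ _ h h' v => (h v).trans (h' v)
  glue := by
    intro x y F
    set G : M := code (M := M) F with hG
    have hGm : ∀ j : El J, Mem j.1 G ↔ j ∈ F := fun j =>
      (mem_code_iff : Mem (code (M := M) j) (code (M := M) F) ↔ j ∈ F)
    have hS : D (fun v : Fin 1 → M => v 0 ∈ {p : M | ∃ j, ∃ v, p = op j v ∧
        ((Mem j G ∧ Mem p y.1) ∨ (¬ Mem j G ∧ Mem p x.1))}) := by
      refine D.ex (D.ex (D.and (D.eqf (DF.var _) (DF.op (DF.var _) (DF.var _))) (D.or
        (D.and (D.memf (DF.var _) (DF.const _)) (D.memf (DF.var _) (DF.const _)))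
        (D.and (D.not (D.memf (DF.var _) (DF.const _))) (D.memf (DF.var _) (DF.const _))))))
    have hs := small_sep hS (small_union x.1 y.1).elt
    have hm : ∀ p, Mem p hs.elt ↔ ∃ j, ∃ v, p = op j v ∧
        ((Mem j G ∧ Mem p y.1) ∨ (¬ Mem j G ∧ Mem p x.1)) := by
      intro p
      rw [hs.mem]
      refine ⟨fun h => h.2, fun h => ⟨?_, h⟩⟩
      obtain ⟨j, v, -, h | h⟩ := h
      · exact (small_union x.1 y.1).mem.2 (Or.inr h.2)
      · exact (small_union x.1 y.1).mem.2 (Or.inl h.2)
    have hx := (hP.set.2 x.1).1 x.2
    have hy := (hP.set.2 y.1).1 y.2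
    have hm' : ∀ (j v : M), Mem (op j v) hs.elt ↔
        ((Mem j G ∧ Mem (op j v) y.1) ∨ (¬ Mem j G ∧ Mem (op j v) x.1)) := by
      intro j v
      rw [hm]
      constructor
      · rintro ⟨j', v', h1, h2⟩
        obtain ⟨rfl, rfl⟩ := op_inj h1
        exact h2
      · exact fun h => ⟨j, v, rfl, h⟩
    have hz : IsChoice X hs.elt := by
      refine ⟨hs.isSet, fun p hp => ?_, fun j => ?_⟩
      · obtain ⟨j, v, rfl, h | h⟩ := (hm p).1 hp
        · exact hy.2.1 _ h.2
        · exact hx.2.1 _ h.2
      · by_cases hj : Mem j.1 G
        · obtain ⟨v, ⟨p, h1, h2⟩, h3⟩ := hy.2.2 j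
          rw [isOrdPair_iff] at h1
          subst h1
          refine ⟨v, ⟨_, isOrdPair_iff.2 rfl, (hm' _ _).2 (Or.inl ⟨hj, h2⟩)⟩, ?_⟩
          rintro w ⟨p, h4, h5⟩
          rw [isOrdPair_iff] at h4
          subst h4
          rcases (hm' _ _).1 h5 with h6 | h6
          · exact h3 w ⟨_, isOrdPair_iff.2 rfl, h6.2⟩
          · exact absurd hj h6.1
        · obtain ⟨v, ⟨p, h1, h2⟩, h3⟩ := hx.2.2 j
          rw [isOrdPair_iff] at h1
          subst h1
          refine ⟨v, ⟨_, isOrdPair_iff.2 rfl, (hm' _ _).2 (Or.inr ⟨hj, h2⟩)⟩, ?_⟩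
          rintro w ⟨p, h4, h5⟩
          rw [isOrdPair_iff] at h4
          subst h4
          rcases (hm' _ _).1 h5 with h6 | h6
          · exact absurd h6.1 hj
          · exact h3 w ⟨_, isOrdPair_iff.2 rfl, h6.2⟩
    refine ⟨⟨hs.elt, (hP.set.2 _).2 hz⟩, fun j => ⟨fun hj v => ?_, fun hj v => ?_⟩⟩
    · have hj' := (hGm j).2 hj
      rw [hm']
      exact ⟨fun h => Or.inl ⟨hj', h⟩, fun h => h.elim (fun h => h.2) fun h => absurd hj' h.1⟩
    · have hj' : ¬ Mem j.1 G := fun h => hj ((hGm j).1 h)
      rw [hm']
      exact ⟨fun h => Or.inr ⟨hj', h⟩, fun h => h.elim (fun h => absurd h.1 hj') fun h => h.2⟩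

/-- Open sets contain basic neighbourhoods. -/
theorem basic_of_open (hd : ∀ j, IsDiscreteIn (X j) (τ j)) (hP : IsProdSpace X τ P σ) {U : M}
    (hU : Mem U σ) (x : El P) (hx : Mem x.1 U) :
    ∃ F : IPow M (El J), IFin F ∧ ∀ y : El P, Ag SameAt F x y → Mem y.1 U := by
  have hE := int_sameAt (M := M) (J := J) (P := P)
  have hTi : Int M (fun V : IPow M (El P) => ∀ x, x ∈ V → ∃ F : IPow M (El J), IFin F ∧
      ∀ y : El P, Ag SameAt F x y → y ∈ V) := by (repeat' first
        | (with_reducible assumption)
        | (with_reducible exact IntF.id) | (with_reducible exact IntF.fst')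
        | (with_reducible exact IntF.snd') | (with_reducible exact IntF.const _)
        | (with_reducible exact Int.const _)
        | (with_reducible apply IntF.fst) | (with_reducible apply IntF.snd)
        | (with_reducible apply Int.and) | (with_reducible apply Int.or) | (with_reducible apply Int.not)
        | (with_reducible apply Int.ne) | (with_reducible apply Int.iff) | (with_reducible apply Int.imp)
        | (with_reducible apply Int.ex) | (with_reducible apply Int.all) | (with_reducible apply Int.eq)
        | (with_reducible apply Int.mem) | (with_reducible apply Int.subset) | (with_reducible apply Int.fin)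
        | (with_reducible_and_instances apply Int.leN) | (with_reducible_and_instances apply Int.ltN)
        | (with_reducible_and_instances apply Int.le) | (with_reducible_and_instances apply Int.lt)
        | (with_reducible_and_instances apply IntF.add) | (with_reducible_and_instances apply IntF.sub)
        | (with_reducible_and_instances apply IntF.mul) | (with_reducible_and_instances apply IntF.neg)
        | (with_reducible_and_instances apply IntF.div) | (with_reducible_and_instances apply IntF.inv)
        | (with_reducible apply IntF.pair) | (with_reducible apply IntF.succ) | (with_reducible apply IntF.sep)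
        | (with_reducible apply IntF.insert) | (with_reducible apply IntF.singleton)
        | (with_reducible apply IntF.bz)
        | (with_reducible ((refine int_ag ?_ ?_ ?_ ?_); assumption))
        | (with_reducible ((refine IntF.comp₂ ?_ ?_ ?_); assumption))
        | (with_reducible ((refine Int.comp₂ ?_ ?_ ?_); assumption))
        | (with_reducible ((refine IntF.comp ?_ ?_); assumption))
        | (with_reducible ((refine Int.comp ?_ ?_); assumption))
        | (with_reducible apply IntF.app))
  set T : IPow M (IPow M (El P)) := sep M (fun V : IPow M (El P) => ∀ x, x ∈ V →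
    ∃ F : IPow M (El J), IFin F ∧ ∀ y : El P, Ag SameAt F x y → y ∈ V) with hT
  have hmem : ∀ V : M, Mem V (code (M := M) T) ↔ IsSub V P ∧ ∀ x : El P, Mem x.1 V →
      ∃ F : IPow M (El J), IFin F ∧ ∀ y : El P, Ag SameAt F x y → Mem y.1 V := by
    intro V
    constructor
    · intro h
      obtain ⟨s, hs, rfl⟩ := mem_code_pow.1 h
      refine ⟨isSub_code s, fun x hx => ?_⟩
      obtain ⟨F, hF, h1⟩ := (mem_sep hTi).1 hs x (mem_code_iff.1 hx)
      exact ⟨F, hF, fun y hy => mem_code_iff.2 (h1 y hy)⟩
    · rintro ⟨h1, h2⟩
      obtain ⟨s, hs⟩ := exists_sub (X := P) V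
      rw [← code_eq h1 hs]
      refine mem_code_iff.2 ((mem_sep hTi).2 fun x hx => ?_)
      obtain ⟨F, hF, h3⟩ := h2 x ((hs x).1 hx)
      exact ⟨F, hF, fun y hy => (hs y).2 (h3 y hy)⟩
  have htop : IsTopology P (code (M := M) T) := by
    refine ⟨fun V hV => ((hmem V).1 hV).1, fun V hV h0 => ?_, fun V hV h1 => ?_,
      fun U V W hU hV hW h1 => ?_, fun C W hC hW h1 => ?_⟩
    · exact (hmem V).2 ⟨⟨hV, fun z hz => absurd hz (h0 z)⟩, fun x hx => absurd hx (h0 _)⟩
    · exact (hmem V).2 ⟨⟨hV, fun z hz => (h1 z).1 hz⟩, fun x _ => ⟨∅, IFin.empty, fun y _ =>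
        (h1 _).2 y.2⟩⟩
    · obtain ⟨hU1, hU2⟩ := (hmem U).1 hU
      obtain ⟨hV1, hV2⟩ := (hmem V).1 hV
      refine (hmem W).2 ⟨⟨hW, fun z hz => hU1.2 z ((h1 z).1 hz).1⟩, fun x hx => ?_⟩
      obtain ⟨F, hF, h2⟩ := hU2 x ((h1 _).1 hx).1
      obtain ⟨G, hG, h3⟩ := hV2 x ((h1 _).1 hx).2
      exact ⟨F ∪ G, hF.union hG, fun y hy => (h1 _).2 ⟨h2 y (hy.mono fun j hj =>
        mem_union.2 (Or.inl hj)), h3 y (hy.mono fun j hj => mem_union.2 (Or.inr hj))⟩⟩
    · refine (hmem W).2 ⟨⟨hW, fun z hz => ?_⟩, fun x hx => ?_⟩
      · obtain ⟨U, hU, hzU⟩ := (h1 z).1 hz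
        exact ((hmem U).1 (hC U hU)).1.2 z hzU
      · obtain ⟨U, hU, hxU⟩ := (h1 _).1 hx
        obtain ⟨F, hF, h2⟩ := ((hmem U).1 (hC U hU)).2 x hxU
        exact ⟨F, hF, fun y hy => (h1 _).2 ⟨U, hU, h2 y hy⟩⟩
  have hpre : HasPreimages τ P (code (M := M) T) := by
    intro j U W hU hW h1
    refine (hmem W).2 ⟨⟨hW, fun z hz => ((h1 z).1 hz).1⟩, fun x hx => ?_⟩
    obtain ⟨-, v, p, h2, h3, h4⟩ := (h1 _).1 hx
    rw [isOrdPair_iff] at h3
    subst h3
    exact ⟨{j}, IFin.singleton j, fun y hy => (h1 _).2 ⟨y.2, v, _, h2, isOrdPair_iff.2 rfl,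
      (hy j (mem_singleton.2 rfl) v).1 h4⟩⟩
  exact ((hmem U).1 (hP.least _ htop hpre U hU)).2 x hx

/-- Sets that contain basic neighbourhoods are open. -/
theorem open_of_basic (hd : ∀ j, IsDiscreteIn (X j) (τ j)) (hP : IsProdSpace X τ P σ)
    (V : IPow M (El P)) (hV : ∀ x, x ∈ V → ∃ F : IPow M (El J), IFin F ∧
      ∀ y : El P, Ag SameAt F x y → y ∈ V) : Mem (code (M := M) V) σ := by
  have hE := int_sameAt (M := M) (J := J) (P := P)
  have hcyl : ∀ x : El P, ∀ F : IPow M (El J), IFin F →
      Mem (code (M := M) (sep M fun y : El P => Ag SameAt F x y)) σ := by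
    intro x
    have hi : IntF M (fun F : IPow M (El J) => sep M fun y : El P => Ag SameAt F x y) := by (repeat' first
        | (with_reducible assumption)
        | (with_reducible exact IntF.id) | (with_reducible exact IntF.fst')
        | (with_reducible exact IntF.snd') | (with_reducible exact IntF.const _)
        | (with_reducible exact Int.const _)
        | (with_reducible apply IntF.fst) | (with_reducible apply IntF.snd)
        | (with_reducible apply Int.and) | (with_reducible apply Int.or) | (with_reducible apply Int.not)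
        | (with_reducible apply Int.ne) | (with_reducible apply Int.iff) | (with_reducible apply Int.imp)
        | (with_reducible apply Int.ex) | (with_reducible apply Int.all) | (with_reducible apply Int.eq)
        | (with_reducible apply Int.mem) | (with_reducible apply Int.subset) | (with_reducible apply Int.fin)
        | (with_reducible_and_instances apply Int.leN) | (with_reducible_and_instances apply Int.ltN)
        | (with_reducible_and_instances apply Int.le) | (with_reducible_and_instances apply Int.lt)
        | (with_reducible_and_instances apply IntF.add) | (with_reducible_and_instances apply IntF.sub)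
        | (with_reducible_and_instances apply IntF.mul) | (with_reducible_and_instances apply IntF.neg)
        | (with_reducible_and_instances apply IntF.div) | (with_reducible_and_instances apply IntF.inv)
        | (with_reducible apply IntF.pair) | (with_reducible apply IntF.succ) | (with_reducible apply IntF.sep)
        | (with_reducible apply IntF.insert) | (with_reducible apply IntF.singleton)
        | (with_reducible apply IntF.bz)
        | (with_reducible ((refine int_ag ?_ ?_ ?_ ?_); assumption))
        | (with_reducible ((refine IntF.comp₂ ?_ ?_ ?_); assumption))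
        | (with_reducible ((refine Int.comp₂ ?_ ?_ ?_); assumption))
        | (with_reducible ((refine IntF.comp ?_ ?_); assumption))
        | (with_reducible ((refine Int.comp ?_ ?_); assumption))
        | (with_reducible apply IntF.app))
    have hi1 : ∀ F : IPow M (El J), Int M (fun y : El P => Ag SameAt F x y) := by
      intro F
      exact (by (repeat' first
        | (with_reducible assumption)
        | (with_reducible exact IntF.id) | (with_reducible exact IntF.fst')
        | (with_reducible exact IntF.snd') | (with_reducible exact IntF.const _)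
        | (with_reducible exact Int.const _)
        | (with_reducible apply IntF.fst) | (with_reducible apply IntF.snd)
        | (with_reducible apply Int.and) | (with_reducible apply Int.or) | (with_reducible apply Int.not)
        | (with_reducible apply Int.ne) | (with_reducible apply Int.iff) | (with_reducible apply Int.imp)
        | (with_reducible apply Int.ex) | (with_reducible apply Int.all) | (with_reducible apply Int.eq)
        | (with_reducible apply Int.mem) | (with_reducible apply Int.subset) | (with_reducible apply Int.fin)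
        | (with_reducible_and_instances apply Int.leN) | (with_reducible_and_instances apply Int.ltN)
        | (with_reducible_and_instances apply Int.le) | (with_reducible_and_instances apply Int.lt)
        | (with_reducible_and_instances apply IntF.add) | (with_reducible_and_instances apply IntF.sub)
        | (with_reducible_and_instances apply IntF.mul) | (with_reducible_and_instances apply IntF.neg)
        | (with_reducible_and_instances apply IntF.div) | (with_reducible_and_instances apply IntF.inv)
        | (with_reducible apply IntF.pair) | (with_reducible apply IntF.succ) | (with_reducible apply IntF.sep)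
        | (with_reducible apply IntF.insert) | (with_reducible apply IntF.singleton)
        | (with_reducible apply IntF.bz)
        | (with_reducible ((refine int_ag ?_ ?_ ?_ ?_); assumption))
        | (with_reducible ((refine IntF.comp₂ ?_ ?_ ?_); assumption))
        | (with_reducible ((refine Int.comp₂ ?_ ?_ ?_); assumption))
        | (with_reducible ((refine IntF.comp ?_ ?_); assumption))
        | (with_reducible ((refine Int.comp ?_ ?_); assumption))
        | (with_reducible apply IntF.app)))
    refine IFin.ind (Int.comp (p := fun s : IPow M (El P) => Mem (code (M := M) s) σ)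
      ⟨σ, fun _ => Iff.rfl⟩ hi) ?_ ?_
    · refine hP.top.univ _ (IPow.int _).small.isSet fun z => ⟨fun hz => ?_, fun hz => ?_⟩
      · exact (isSub_code _).2 z hz
      · exact mem_code_pow.2 ⟨⟨z, hz⟩, (mem_sep (hi1 ∅)).2 fun j hj => absurd hj (by simp), rfl⟩
    · intro F j _ _ ih
      have hx := (hP.set.2 x.1).1 x.2
      obtain ⟨v, ⟨p, h1, h2⟩, h3⟩ := hx.2.2 j
      rw [isOrdPair_iff] at h1
      subst h1
      have hvX : Mem v (X j) := by
        obtain ⟨j', v', h4, h5⟩ := hx.2.1 _ h2
        rw [isOrdPair_iff] at h5
        obtain ⟨h6, rfl⟩ := op_inj h5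
        have : j = j' := Subtype.ext h6
        rw [this]
        exact h4
      have hU : Mem (up v v) (τ j) := (hd j _).2 ⟨isSet_up v v, fun z hz => by
        rcases mem_up.1 hz with rfl | rfl <;> exact hvX⟩
      have hS : Int M (fun y : El P => Mem (op j.1 v) y.1) := by
        refine Int.of_D (S := fun w => Mem (op j.1 v) (w 0)) (D.memf (DF.const _) (DF.var _))
          fun y => Iff.rfl
      have hW : Mem (code (M := M) (sep M fun y : El P => Mem (op j.1 v) y.1)) σ := by
        refine hP.pre j (up v v) _ hU (IPow.int _).small.isSet fun f => ?_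
        constructor
        · intro hf
          obtain ⟨y, hy, rfl⟩ := mem_code_pow.1 hf
          exact ⟨y.2, v, _, mem_up.2 (Or.inl rfl), isOrdPair_iff.2 rfl, (mem_sep hS).1 hy⟩
        · rintro ⟨hf, w, p, h4, h5, h6⟩
          have hw : w = v := by rcases mem_up.1 h4 with rfl | rfl <;> rfl
          subst hw
          rw [isOrdPair_iff] at h5
          subst h5
          exact mem_code_pow.2 ⟨⟨f, hf⟩, (mem_sep hS).2 h6, rfl⟩
      refine hP.top.inter _ _ _ ih hW (IPow.int _).small.isSet fun z => ?_
      constructor
      · intro hz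
        obtain ⟨y, hy, rfl⟩ := mem_code_pow.1 hz
        have hy' := (mem_sep (hi1 _)).1 hy
        refine ⟨mem_code_iff.2 ((mem_sep (hi1 _)).2 fun i hi => hy' i (mem_insert.2
          (Or.inr hi))), mem_code_iff.2 ((mem_sep hS).2 ?_)⟩
        exact (hy' j (mem_insert.2 (Or.inl rfl)) v).1 h2
      · rintro ⟨hz1, hz2⟩
        obtain ⟨y, hy, rfl⟩ := mem_code_pow.1 hz1
        have hy1 := (mem_sep (hi1 _)).1 hy
        have hy2 := (mem_sep hS).1 (mem_code_iff.1 hz2)
        refine mem_code_iff.2 ((mem_sep (hi1 _)).2 fun i hi => ?_)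
        rcases mem_insert.1 hi with rfl | hi
        · have hyc := (hP.set.2 y.1).1 y.2
          obtain ⟨v', ⟨p', h4, h5⟩, h6⟩ := hyc.2.2 i
          intro w
          constructor
          · intro hw
            have : w = v := h3 w ⟨_, isOrdPair_iff.2 rfl, hw⟩
            subst this
            exact hy2
          · intro hw
            have h7 : w = v' := h6 w ⟨_, isOrdPair_iff.2 rfl, hw⟩
            have h8 : v = v' := h6 v ⟨_, isOrdPair_iff.2 rfl, hy2⟩
            rw [h7, ← h8]
            exact h2
        · exact hy1 i hi
  have hS : D (fun v : Fin 1 → M => v 0 ∈ {U : M | ∀ z, Mem z U → Mem z (code (M := M) V)}) := by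
    exact D.all (D.imp (D.memf (DF.var _) (DF.var _)) (D.memf (DF.var _) (DF.const _)))
  have hs := small_sep hS σ
  have hi2 : ∀ (F : IPow M (El J)) (x : El P), Int M (fun y : El P => Ag SameAt F x y) := by
    intro F x
    exact (by (repeat' first
        | (with_reducible assumption)
        | (with_reducible exact IntF.id) | (with_reducible exact IntF.fst')
        | (with_reducible exact IntF.snd') | (with_reducible exact IntF.const _)
        | (with_reducible exact Int.const _)
        | (with_reducible apply IntF.fst) | (with_reducible apply IntF.snd)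
        | (with_reducible apply Int.and) | (with_reducible apply Int.or) | (with_reducible apply Int.not)
        | (with_reducible apply Int.ne) | (with_reducible apply Int.iff) | (with_reducible apply Int.imp)
        | (with_reducible apply Int.ex) | (with_reducible apply Int.all) | (with_reducible apply Int.eq)
        | (with_reducible apply Int.mem) | (with_reducible apply Int.subset) | (with_reducible apply Int.fin)
        | (with_reducible_and_instances apply Int.leN) | (with_reducible_and_instances apply Int.ltN)
        | (with_reducible_and_instances apply Int.le) | (with_reducible_and_instances apply Int.lt)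
        | (with_reducible_and_instances apply IntF.add) | (with_reducible_and_instances apply IntF.sub)
        | (with_reducible_and_instances apply IntF.mul) | (with_reducible_and_instances apply IntF.neg)
        | (with_reducible_and_instances apply IntF.div) | (with_reducible_and_instances apply IntF.inv)
        | (with_reducible apply IntF.pair) | (with_reducible apply IntF.succ) | (with_reducible apply IntF.sep)
        | (with_reducible apply IntF.insert) | (with_reducible apply IntF.singleton)
        | (with_reducible apply IntF.bz)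
        | (with_reducible ((refine int_ag ?_ ?_ ?_ ?_); assumption))
        | (with_reducible ((refine IntF.comp₂ ?_ ?_ ?_); assumption))
        | (with_reducible ((refine Int.comp₂ ?_ ?_ ?_); assumption))
        | (with_reducible ((refine IntF.comp ?_ ?_); assumption))
        | (with_reducible ((refine Int.comp ?_ ?_); assumption))
        | (with_reducible apply IntF.app)))
  refine hP.top.sUnion hs.elt _ (fun U hU => (hs.mem.1 hU).1) V.int.small.isSet fun z => ?_
  constructor
  · intro hz
    obtain ⟨x, hx, rfl⟩ := mem_code_pow.1 hz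
    obtain ⟨F, hF, h1⟩ := hV x hx
    refine ⟨_, hs.mem.2 ⟨hcyl x F hF, fun w hw => ?_⟩, mem_code_iff.2 ((mem_sep (hi2 F x)).2
      fun j _ v => Iff.rfl)⟩
    obtain ⟨y, hy, rfl⟩ := mem_code_pow.1 hw
    exact mem_code_iff.2 (h1 y ((mem_sep (hi2 F x)).1 hy))
  · rintro ⟨U, hU, hz⟩
    exact (hs.mem.1 hU).2 z hz

/-- In a model of set theory, products of discrete spaces are strongly zero-dimensional. -/
theorem stronglyZeroDim_prod {R : M} [Field (El R)] [LinearOrder (El R)]
    [IsStrictOrderedRing (El R)] (hR : RealField R) (hd : ∀ j, IsDiscreteIn (X j) (τ j))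
    (hP : IsProdSpace X τ P σ) : StronglyZeroDim R P σ := by
  intro f A B hf _ hA hB hfA hfB
  have hρ := iReal_of hR
  obtain ⟨hf1, hf2⟩ := hf
  obtain ⟨C, hC1, hC2, hC3, hC4⟩ := core (isProd_of hP) (intF_of' hf1) fun x e he => by
    obtain ⟨U, hU, hx, h1⟩ := hf2 x e he
    obtain ⟨F, hF, h2⟩ := basic_of_open hd hP hU x hx
    exact ⟨F, hF, fun y hy => h1 y (h2 y hy)⟩
  refine ⟨code (M := M) C, code (M := M) (iuniv M (El P) \ C), open_of_basic hd hP C hC1,
    open_of_basic hd hP _ fun x hx => ?_, fun z => ?_, fun z hz => ?_, fun z hz hzC => ?_⟩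
  · obtain ⟨F, hF, h1⟩ := hC2 x (mem_sdiff.1 hx).2
    exact ⟨F, hF, fun y hy => mem_sdiff.2 ⟨mem_iuniv.2 trivial, h1 y hy⟩⟩
  · constructor
    · intro hz
      obtain ⟨y, hy, rfl⟩ := mem_code_pow.1 hz
      exact ⟨y.2, fun h => (mem_sdiff.1 hy).2 (mem_code_iff.1 h)⟩
    · rintro ⟨hz, hzC⟩
      refine mem_code_pow.2 ⟨⟨z, hz⟩, mem_sdiff.2 ⟨mem_iuniv.2 trivial, fun h => hzC ?_⟩, rfl⟩
      exact mem_code_iff.2 h
  · exact mem_code_iff.2 (hC3 ⟨z, hA.2 z hz⟩ (hfA ⟨z, hA.2 z hz⟩ hz))
  · exact hC4 ⟨z, hB.2 z hz⟩ (hfB ⟨z, hB.2 z hz⟩ hz) (mem_code_iff.1 hzC)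

end

end Pool.Agent.R601.CZ
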